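import Pool.Agent.X328.GN.Stm

/-!
Part CHI of project GN: functoriality, and the roots of `chi` are the multipliers.
-/

set_option autoImplicit false

namespace Pool.Agent.X115.GN

open Finset Polynomial Pool.Agent.X328.GN

universe u v

section

variable {A A' : Type*} [CommRing A] [CommRing A'] (φ : A →+* A') (d : ℕ)

lemma nu_map (t : Ix d → A) : (nu d t).map φ = nu d (fun i => φ (t i)) := by
  simp [nu, Polynomial.map_sum]

lemma de_map (t : Ix d → A) : (de d t).map φ = de d (fun i => φ (t i)) := by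
  simp [de, Polynomial.map_sum, map_sum]

lemma hm_map (F P Q : A[X]) : (hm d F P Q).map φ = hm d (F.map φ) (P.map φ) (Q.map φ) := by
  simp [hm, Polynomial.map_sum]

lemma it_map (u w : A[X]) (n : ℕ) :
    (it d u w n).1.map φ = (it d (u.map φ) (w.map φ) n).1 ∧
    (it d u w n).2.map φ = (it d (u.map φ) (w.map φ) n).2 := by
  induction n with
  | zero => simp [it]
  | succ n ih =>
    simp only [it, hm_map, ih.1, ih.2, and_self]

lemma P3_map (t : Ix d → A) : (P3 d t).map φ = P3 d (fun i => φ (t i)) := by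
  rw [P3, (it_map φ d _ _ 3).1, nu_map, de_map, P3]

lemma Q3_map (t : Ix d → A) : (Q3 d t).map φ = Q3 d (fun i => φ (t i)) := by
  rw [Q3, (it_map φ d _ _ 3).2, nu_map, de_map, Q3]

lemma Ph_map (t : Ix d → A) : (Ph d t).map φ = Ph d (fun i => φ (t i)) := by
  rw [Ph, Polynomial.map_sub, Polynomial.map_mul, P3_map, Q3_map, map_X, Ph]

lemma wrA_map (p q : A[X]) : (wrA p q).map φ = wrA (p.map φ) (q.map φ) := by
  rw [wrA, wrA, Polynomial.map_sub, Polynomial.map_mul, Polynomial.map_mul, derivative_map,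
    derivative_map]

lemma mapC (p : A[X]) : (p.map (C : A →+* A[X])).map (mapRingHom φ) = (p.map φ).map C := by
  rw [Polynomial.map_map, Polynomial.map_map]
  congr 1
  ext a
  simp

lemma chi_map (t : Ix d → A) : (chi d t).map φ = chi d (fun i => φ (t i)) := by
  rw [chi, chi, ← P3_map φ, ← Q3_map φ, ← Ph_map φ, ← wrA_map, ← coe_mapRingHom,
    ← resultant_map_map, mapC]
  congr 1
  rw [Polynomial.map_sub, Polynomial.map_mul, Polynomial.map_pow, mapC, mapC, map_C]
  simp

end

section

variable {K : Type u} [Field K] (d : ℕ)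

lemma nu_monic (hd : 2 ≤ d) (t : Ix d → K) : (nu d t).Monic ∧ (nu d t).natDegree = d := by
  have h : (∑ i : Fin (d - 1), C (t (Sum.inl i)) * X ^ (i.1 + 1) : K[X]).degree < d := by
    have h' : (∑ i : Fin (d - 1), C (t (Sum.inl i)) * X ^ (i.1 + 1) : K[X]).natDegree ≤ d - 1 := by
      refine natDegree_sum_le_of_forall_le _ _ fun i _ => ?_
      refine (natDegree_C_mul_X_pow_le _ _).trans ?_
      have := i.2
      omega
    refine (degree_le_of_natDegree_le h').trans_lt ?_
    exact_mod_cast (by omega : d - 1 < d)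
  refine ⟨monic_X_pow_add h, ?_⟩
  rw [nu, natDegree_add_eq_left_of_degree_lt, natDegree_X_pow]
  rw [degree_X_pow]
  exact h

lemma de_deg (hd : 2 ≤ d) (t : Ix d → K) : (de d t).natDegree < d := by
  have h : (∑ i : Fin (d - 1), C (t (Sum.inr i)) * X ^ (i.1 + 1) : K[X]).natDegree ≤ d - 1 := by
    refine natDegree_sum_le_of_forall_le _ _ fun i _ => ?_
    refine (natDegree_C_mul_X_pow_le _ _).trans ?_
    have := i.2
    omega
  refine lt_of_le_of_lt (natDegree_add_le _ _) ?_
  rw [natDegree_C]
  omega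

end

theorem t_CHI (hIT : S_IT.{u}) : S_CHI.{u, v} := by
  refine ⟨fun A A' _ _ φ d t => ⟨P3_map φ d t, Q3_map φ d t, Ph_map φ d t, chi_map φ d t⟩, ?_⟩
  intro K _ _ d hd t hco hdeg hspl
  obtain ⟨hc, h1, h2, h3, -⟩ := hIT K d hd (nu d t) (de d t) hco (nu_monic d hd t).1
    (nu_monic d hd t).2 (de_deg d hd t) 3
  have hP : (P3 d t).natDegree = d ^ 3 := h2
  have hQ : (Q3 d t).natDegree < d ^ 3 := h3
  have hPQ : IsCoprime (P3 d t) (Q3 d t) := hc
  have hinj : Function.Injective (C : K →+* K[X]) := C_injective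
  set F : K[X][X] := (Ph d t).map C with hF
  set G : K[X][X] := (C X * ((Q3 d t).map C) ^ 2 - (wrA (P3 d t) (Q3 d t)).map C) with hG
  have hFd : F.natDegree = d ^ 3 := by
    rw [hF, natDegree_map_eq_of_injective hinj, hdeg]
  have hFs : F.Splits := hspl.map _
  have hGd : G.natDegree ≤ 2 * d ^ 3 := by
    refine (natDegree_sub_le _ _).trans (max_le ?_ ?_)
    · refine (natDegree_C_mul_le _ _).trans ?_
      refine natDegree_pow_le.trans ?_
      refine Nat.mul_le_mul_left 2 ?_
      exact natDegree_map_le.trans hQ.le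
    · refine natDegree_map_le.trans ?_
      rw [wrA]
      refine (natDegree_sub_le _ _).trans (max_le ?_ ?_)
      · refine natDegree_mul_le.trans ?_
        have := (natDegree_derivative_le (P3 d t)).trans (Nat.sub_le _ _)
        omega
      · refine natDegree_mul_le.trans ?_
        have := (natDegree_derivative_le (Q3 d t)).trans (Nat.sub_le _ _)
        omega
  have hroots : F.roots = (Ph d t).roots.map C := by
    rw [hF]
    exact (hspl.roots_map C)
  have hQ0 : ∀ x ∈ (Ph d t).roots, (Q3 d t).eval x ≠ 0 := by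
    intro x hx h0
    have hr : (Ph d t).eval x = 0 := (mem_roots'.mp hx).2
    rw [Ph, eval_sub, eval_mul, h0, mul_zero, sub_zero] at hr
    obtain ⟨a, b, hab⟩ := hPQ
    have := congrArg (eval x) hab
    rw [eval_add, eval_mul, eval_mul, hr, h0, mul_zero, mul_zero, add_zero, eval_one] at this
    exact zero_ne_one this
  have hPh0 : Ph d t ≠ 0 := by
    intro h0
    rw [h0, natDegree_zero] at hdeg
    have : 0 < d ^ 3 := by positivity
    omega
  have hev : ∀ x ∈ (Ph d t).roots, G.eval (C x) =
      C ((Q3 d t).eval x ^ 2) * (X - C (ml d t x)) := by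
    intro x hx
    have h0 := hQ0 x hx
    rw [hG, eval_sub, eval_mul, eval_pow, eval_C, eval_map, eval₂_at_apply, eval_map,
      eval₂_at_apply, ml, mul_sub, ← C_mul, mul_div_cancel₀ _ (pow_ne_zero 2 h0), C_pow]
    ring
  refine ⟨(Ph d t).leadingCoeff ^ (2 * d ^ 3) *
    ((Ph d t).roots.map fun x => (Q3 d t).eval x ^ 2).prod, ?_, ?_⟩
  · refine mul_ne_zero (pow_ne_zero _ (leadingCoeff_ne_zero.mpr hPh0)) ?_
    refine Multiset.prod_ne_zero fun h0 => ?_
    rw [Multiset.mem_map] at h0
    obtain ⟨x, hx, hx0⟩ := h0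
    exact pow_ne_zero 2 (hQ0 x hx) hx0
  · have key := resultant_eq_prod_eval F G (2 * d ^ 3) hGd hFs
    rw [hFd] at key
    rw [chi]
    refine key.trans ?_
    rw [hroots, Multiset.map_map, hF, leadingCoeff_map_of_injective hinj]
    have e : Multiset.map ((fun x => eval x G) ∘ ⇑(C : K →+* K[X])) (Ph d t).roots =
        (Ph d t).roots.map fun x => C ((Q3 d t).eval x ^ 2) * (X - C (ml d t x)) :=
      Multiset.map_congr rfl fun x hx => hev x hx
    rw [e, Multiset.prod_map_mul, C_mul, C_pow, map_multiset_prod, Multiset.map_map, mul_assoc]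
    rfl

end Pool.Agent.X115.GN
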